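import Pool.Agent.Lib.MP_d55432_al.G2.Iface

/-!
# G2, module INV: the two invariants
-/

namespace Pool.Agent.Lib.MP_d55432_al.G2.H20

open Matrix LieAlgebra

attribute [local instance 100] LieRing.ofAssociativeRing

variable {K : Type*} [Field K]

/-- All entries of a matrix valued function are polynomial functions. -/
def EP (F : g2 K → M7 K) : Prop := ∀ i j, (fun X : g2 K => F X i j) ∈ PolyOn K (g2 K)

theorem EP.coe : EP (fun X : g2 K => X.1) := by
  intro i j
  refine Algebra.subset_adjoin ⟨?_, ?_⟩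
  · exact
      { toFun := fun X => X.1 i j
        map_add' := fun _ _ => rfl
        map_smul' := fun _ _ => rfl }
  · rfl

theorem EP.one : EP (fun _ : g2 K => (1 : M7 K)) := by
  intro i j
  exact (PolyOn K (g2 K)).algebraMap_mem ((1 : M7 K) i j)

theorem EP.mul {F G : g2 K → M7 K} (hF : EP F) (hG : EP G) : EP (fun X => F X * G X) := by
  intro i j
  have h : (fun X : g2 K => (F X * G X) i j) =
      ∑ k, (fun X : g2 K => F X i k) * (fun X : g2 K => G X k j) := by
    funext X
    rw [Finset.sum_apply]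
    rfl
  rw [h]
  exact (PolyOn K (g2 K)).sum_mem fun k _ => (PolyOn K (g2 K)).mul_mem (hF i k) (hG k j)

theorem EP.pow {F : g2 K → M7 K} (hF : EP F) (n : ℕ) : EP (fun X => F X ^ n) := by
  induction n with
  | zero =>
    simp only [pow_zero]
    exact EP.one
  | succ n ih =>
    simp only [pow_succ]
    exact ih.mul hF

theorem EP.trace {F : g2 K → M7 K} (hF : EP F) :
    (fun X => (F X).trace) ∈ PolyOn K (g2 K) := by
  have h : (fun X : g2 K => (F X).trace) = ∑ k, (fun X : g2 K => F X k k) := by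
    funext X
    rw [Finset.sum_apply]
    rfl
  rw [h]
  exact (PolyOn K (g2 K)).sum_mem fun k _ => hF k k

theorem const_mem (c : K) : (fun _ : g2 K => c) ∈ PolyOn K (g2 K) :=
  (PolyOn K (g2 K)).algebraMap_mem c

theorem s2_mem : (fun X : g2 K => s2 X.1) ∈ PolyOn K (g2 K) := by
  have h := (PolyOn K (g2 K)).mul_mem (EP.trace (EP.coe.mul (EP.coe (K := K))))
    (const_mem (K := K) (2⁻¹))
  refine (congrArg (fun f => f ∈ PolyOn K (g2 K)) ?_).mp h
  funext X
  simp only [Pi.mul_apply, s2, div_eq_mul_inv]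

theorem s6_mem : (fun X : g2 K => s6 X.1) ∈ PolyOn K (g2 K) := by
  have h1 := (PolyOn K (g2 K)).mul_mem (EP.trace ((EP.coe (K := K)).pow 6))
    (const_mem (K := K) (2⁻¹))
  have h2 := (PolyOn K (g2 K)).mul_mem ((PolyOn K (g2 K)).pow_mem (s2_mem (K := K)) 3)
    (const_mem (K := K) (4⁻¹))
  have h := (PolyOn K (g2 K)).mul_mem ((PolyOn K (g2 K)).sub_mem h1 h2)
    (const_mem (K := K) (3⁻¹))
  refine (congrArg (fun f => f ∈ PolyOn K (g2 K)) ?_).mp h
  funext X
  simp only [Pi.mul_apply, Pi.sub_apply, Pi.pow_apply, s6, div_eq_mul_inv]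

theorem conj_pow {g h : M7 K} (H : h * g = 1) (H' : g * h = 1) (X : M7 K) (n : ℕ) :
    (g * X * h) ^ n = g * X ^ n * h := by
  induction n with
  | zero => rw [pow_zero, pow_zero, Matrix.mul_one, H']
  | succ n ih =>
    rw [pow_succ, ih, pow_succ]
    calc g * X ^ n * h * (g * X * h) = g * X ^ n * (h * g) * X * h := by
          simp only [Matrix.mul_assoc]
      _ = _ := by rw [H, Matrix.mul_one]; simp only [Matrix.mul_assoc]

theorem trace_conj {g h : M7 K} (H : h * g = 1) (X : M7 K) : (g * X * h).trace = X.trace := by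
  rw [Matrix.trace_mul_comm, ← Matrix.mul_assoc, H, Matrix.one_mul]

theorem TT_pow (l m : K) (n : ℕ) :
    TT l m ^ n = Matrix.diagonal (fun i => (![0, l, m, -l - m, -l, -m, l + m] : Fin 7 → K) i ^ n) := by
  rw [TT, Matrix.diagonal_pow]
  rfl

theorem tr_TT_pow (l m : K) (n : ℕ) :
    (TT l m ^ n).trace = 0 ^ n + l ^ n + m ^ n + (-l - m) ^ n + (-l) ^ n + (-m) ^ n
      + (l + m) ^ n := by
  rw [TT_pow, Matrix.trace_diagonal]
  simp only [Fin.sum_univ_succ, Fin.sum_univ_zero]
  simp
  ring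

/-- INV: the invariants. -/
theorem inv (K : Type*) [Field K] [CharZero K] : INV_S K := by
  have h2 : (2 : K) ≠ 0 := two_ne_zero
  have h3 : (3 : K) ≠ 0 := three_ne_zero
  have h4 : (4 : K) ≠ 0 := by norm_num
  refine ⟨?_, ?_, ?_, s2_mem, s6_mem⟩
  · rintro X Y ⟨g, h, H, rfl⟩
    have e2 : s2 (g * X * h) = s2 X := by
      unfold s2
      rw [← pow_two, ← pow_two, conj_pow H.2.1 H.1, trace_conj H.2.1]
    refine ⟨e2, ?_⟩
    unfold s6
    rw [e2, conj_pow H.2.1 H.1, trace_conj H.2.1]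
  · intro t X
    have e2 : s2 (t • X) = t ^ 2 * s2 X := by
      unfold s2
      rw [← pow_two, ← pow_two, smul_pow, Matrix.trace_smul, smul_eq_mul, mul_div_assoc]
    refine ⟨e2, ?_⟩
    unfold s6
    rw [e2, smul_pow, Matrix.trace_smul, smul_eq_mul]
    ring
  · intro l m
    have e2 : s2 (TT l m) = l ^ 2 + m ^ 2 + (l + m) ^ 2 := by
      unfold s2
      rw [← pow_two, tr_TT_pow]
      field_simp
      ring
    refine ⟨e2, ?_⟩
    unfold s6
    rw [e2, tr_TT_pow]
    field_simp
    ring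

end Pool.Agent.Lib.MP_d55432_al.G2.H20
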